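import Pool.Agent.H75C.HY.TRG
import Pool.Agent.Helper48.HY.PartD

/-!
# Project TR, piece D5, second half: phases 4 and 5, output, start, word
-/

set_option autoImplicit false
set_option synthInstance.maxSize 4000

namespace Pool.Agent.Helper31.TR

open Pool.Agent.NPC Pool.Agent.H75C.HY Pool.Agent.H75C.HY.TR

section

variable {α : Type} [TEnc α]

theorem poly_dropLast {β : Type} [TEnc β] {l : α → List β} (hl : NPC.Poly l) :
    NPC.Poly (fun a => (l a).dropLast) :=
  (NPC.Poly.reverse (NPC.Poly.tail (NPC.Poly.reverse hl))).congr fun a => by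
    rw [List.tail_reverse, List.reverse_reverse]

theorem poly_N {c : α → Cl} (hc : NPC.Poly c) : NPC.Poly (fun a => N (c a)) :=
  NPC.Poly.fst (NPC.Poly.fst (NPC.Poly.snd hc))

theorem poly_fin {r : α → Bool} (hr : NPC.Poly r) : NPC.Poly (fun a => fin (r a)) := by
  unfold fin
  exact NPC.Poly.pair (NPC.Poly.pair (NPC.Poly.some hr) (NPC.Poly.const 0)) (NPC.Poly.const _)

/-- a state of phase 4 -/
theorem poly_s4 {c : α → Cl} {mc : α → Fls} {ψ : α → List Tok} {B : α → List ℕ}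
    {e : α → List (ℕ × ℕ)} {v : α → ℕ} {b : α → Bool} (hc : NPC.Poly c) (hmc : NPC.Poly mc)
    (hψ : NPC.Poly ψ) (hB : NPC.Poly B) (he : NPC.Poly e) (hv : NPC.Poly v) (hb : NPC.Poly b) :
    NPC.Poly (fun a => (((none, 4), ([], []), cf0, (c a, mc a, ψ a, B a, e a, v a, b a)) : Gs)) := by
  refine NPC.Poly.pair (NPC.Poly.const _) (NPC.Poly.pair (NPC.Poly.const _)
    (NPC.Poly.pair (NPC.Poly.const _) ?_))
  exact NPC.Poly.pair hc (NPC.Poly.pair hmc (NPC.Poly.pair hψ (NPC.Poly.pair hB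
    (NPC.Poly.pair he (NPC.Poly.pair hv hb)))))

theorem poly_ndS {J : α → List Key} {k : α → Key} (hJ : NPC.Poly J) (hk : NPC.Poly k) :
    NPC.Poly (fun a => ndS (J a) (k a)) := by
  unfold ndS
  refine NPC.Poly.pair (NPC.Poly.const _) (NPC.Poly.pair (NPC.Poly.pair (NPC.Poly.const _) hJ)
    (NPC.Poly.pair (NPC.Poly.const _) ?_))
  exact NPC.Poly.pair (NPC.Poly.const _) (NPC.Poly.pair (NPC.Poly.const _)
    (NPC.Poly.pair (NPC.Poly.fst hk) (NPC.Poly.pair (NPC.Poly.snd hk) (NPC.Poly.const _))))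

theorem poly_ph4 {E : ℕ → List Bool → Bool} {K : ℕ → ℕ} {argX : List Tok → ℕ → List Tok}
    (hE : NPC.Poly (fun p : ℕ × List Bool => E p.1 p.2)) (hK : NPC.Poly K)
    (hA : NPC.Poly (fun p : List Tok × ℕ => argX p.1 p.2))
    {w : α → List Tok} {c : α → Cl} {mc : α → Fls} {t : α → Tok} {tl : α → List Tok}
    {B : α → List ℕ} {e : α → List (ℕ × ℕ)} {v : α → ℕ} {b : α → Bool} {M M' : α → List Bool}
    (hw : NPC.Poly w) (hc : NPC.Poly c) (hmc : NPC.Poly mc) (ht : NPC.Poly t)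
    (htl : NPC.Poly tl) (hB : NPC.Poly B) (he : NPC.Poly e) (hv : NPC.Poly v) (hb : NPC.Poly b)
    (hM : NPC.Poly M) (hM' : NPC.Poly M') :
    NPC.Poly (fun a => ph4 E K argX (w a) (c a) (mc a) (t a) (tl a) (B a) (e a) (v a) (b a)
      (M a) (M' a)) := by
  have k : ∀ n : ℕ, NPC.Poly (fun a => decide ((t a).1 = n)) := fun n =>
    NPC.Poly.decide_eq (NPC.Poly.fst ht) (NPC.Poly.const n)
  have hN : NPC.Poly (fun a => N (c a)) := poly_N hc
  have ht2 : NPC.Poly (fun a => (t a).2) := NPC.Poly.snd ht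
  have hm : NPC.Poly (fun a => valB (M a)) := NPC.Poly.valBits hM
  have hm' : NPC.Poly (fun a => valB (M' a)) := NPC.Poly.valBits hM'
  have hEM : NPC.Poly (fun a => E (t a).2 (M a)) := hE.comp (NPC.Poly.pair ht2 hM)
  have hKt : NPC.Poly (fun a => K (t a).2) := hK.comp ht2
  have hAt : NPC.Poly (fun a => argX (t a :: tl a) (valB (M' a))) :=
    hA.comp (NPC.Poly.pair (NPC.Poly.cons ht htl) hm')
  have hdl : NPC.Poly (fun a => (tl a).dropLast) := poly_dropLast htl
  have hc1 : NPC.Poly (fun a => (c a).1) := NPC.Poly.fst hc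
  have hcV : NPC.Poly (fun a => (c a).2.1.2.1) :=
    NPC.Poly.fst (NPC.Poly.snd (NPC.Poly.fst (NPC.Poly.snd hc)))
  have hcn : NPC.Poly (fun a => (c a).2.1.2.2) :=
    NPC.Poly.snd (NPC.Poly.snd (NPC.Poly.fst (NPC.Poly.snd hc)))
  have hmem : NPC.Poly (fun a => decide (((t a).2, v a) ∈ (c a).2.1.2.1)) :=
    (NPC.Poly.decide_mem (NPC.Poly.pair ht2 hv) hcV).congr fun a => by
      rw [decide_eq_decide]
  have hmem2 : NPC.Poly (fun a => decide ((((tl a).dropLast, B a), decide ((t a).1 = 6)) ∈ mc a)) :=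
    (NPC.Poly.decide_mem (NPC.Poly.pair (NPC.Poly.pair hdl hB) (k 6)) hmc).congr fun a => by
      rw [decide_eq_decide]
  have hmem3 : NPC.Poly (fun a => decide (t a ∈ w a)) :=
    (NPC.Poly.decide_mem ht hw).congr fun a => by
      rw [decide_eq_decide]
  unfold ph4
  refine NPC.Poly.ite (k 0) (poly_fin (NPC.Poly.decide_eq hmem hb)) ?_
  refine NPC.Poly.ite (k 1) (poly_fin (NPC.Poly.decide_eq (NPC.Poly.decide_eq hv
    (Pool.Agent.Helper48.HY.poly_lk hcn hN ht2)) hb)) ?_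
  refine NPC.Poly.ite (k 2) (poly_fin (NPC.Poly.decide_eq (NPC.Poly.decide_eq hv
    (Pool.Agent.Helper48.HY.poly_lk he hN ht2)) hb)) ?_
  refine NPC.Poly.ite (k 3) ?_ ?_
  · refine NPC.Poly.ite (NPC.Poly.decide_eq hEM hb) ?_ (NPC.Poly.const _)
    refine NPC.Poly.ite (NPC.Poly.decide_lt hm' hKt) ?_ (NPC.Poly.const _)
    exact poly_s4 hc hmc hAt hB he hv (NPC.Poly.getD hM hm' (NPC.Poly.const false))
  refine NPC.Poly.ite (NPC.Poly.decide_or (k 6) (k 7)) ?_ ?_
  · refine NPC.Poly.ite hmem2 (poly_fin (NPC.Poly.decide_eq (k 6) hb)) ?_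
    refine NPC.Poly.ite (NPC.Poly.decide_eq hc1 (NPC.Poly.const false))
      (poly_fin (NPC.Poly.decide_eq (k 7) hb)) ?_
    refine NPC.Poly.ite (NPC.Poly.decide_eq (k 6) hb) ?_ ?_
    · exact NPC.Poly.ite (NPC.Poly.decide_lt hm hN) (poly_s4 hc hmc hdl hB he hm hb)
        (NPC.Poly.const _)
    · exact NPC.Poly.ite (NPC.Poly.decide_lt hm' hN) (poly_s4 hc hmc hdl hB he hm' hb)
        (NPC.Poly.const _)
  refine NPC.Poly.ite (NPC.Poly.decide_and (k 8) hmem3) ?_ (NPC.Poly.const _)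
  exact poly_s4 hc hmc htl (NPC.Poly.cons ht2 hB) (NPC.Poly.cons (NPC.Poly.pair ht2
    (NPC.Poly.min hv (NPC.Poly.length hM))) he) hv hb

theorem poly_ph5 {K : ℕ → ℕ} {argX : List Tok → ℕ → List Tok} (hK : NPC.Poly K)
    (hA : NPC.Poly (fun p : List Tok × ℕ => argX p.1 p.2))
    {J : α → List Key} {t : α → Tok} {tl : α → List Tok} {B : α → List ℕ} {M' : α → List Bool}
    (hJ : NPC.Poly J) (ht : NPC.Poly t) (htl : NPC.Poly tl) (hB : NPC.Poly B)
    (hM' : NPC.Poly M') :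
    NPC.Poly (fun a => ph5 K argX (J a) (t a) (tl a) (B a) (M' a)) := by
  have k : ∀ n : ℕ, NPC.Poly (fun a => decide ((t a).1 = n)) := fun n =>
    NPC.Poly.decide_eq (NPC.Poly.fst ht) (NPC.Poly.const n)
  have ht2 : NPC.Poly (fun a => (t a).2) := NPC.Poly.snd ht
  have hm' : NPC.Poly (fun a => valB (M' a)) := NPC.Poly.valBits hM'
  have hKt : NPC.Poly (fun a => K (t a).2) := hK.comp ht2
  have hAt : NPC.Poly (fun a => argX (t a :: tl a) (valB (M' a))) :=
    hA.comp (NPC.Poly.pair (NPC.Poly.cons ht htl) hm')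
  have hdl : NPC.Poly (fun a => (tl a).dropLast) := poly_dropLast htl
  have hmem : NPC.Poly (fun a => decide (((tl a).dropLast, B a) ∈ J a)) :=
    (NPC.Poly.decide_mem (NPC.Poly.pair hdl hB) hJ).congr fun a => by
      rw [decide_eq_decide]
  unfold ph5
  refine NPC.Poly.ite (k 3) ?_ ?_
  · exact NPC.Poly.ite (NPC.Poly.decide_lt hm' hKt) (poly_ndS hJ (NPC.Poly.pair hAt hB))
      (NPC.Poly.const _)
  refine NPC.Poly.ite (NPC.Poly.decide_or (k 6) (k 7)) (poly_fin hmem) ?_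
  refine NPC.Poly.ite (k 8) ?_ (NPC.Poly.const _)
  exact poly_ndS hJ (NPC.Poly.pair htl (NPC.Poly.cons ht2 hB))

end

theorem poly_tout : NPC.Poly tout :=
  NPC.Poly.decide_eq (NPC.Poly.fst (NPC.Poly.fst NPC.Poly.id)) (NPC.Poly.const (some true))

theorem poly_tini {wf : List Tok → Bool} (hwf : NPC.Poly wf) : NPC.Poly (tini wf) := by
  have h1 : NPC.Poly (fun x : List Bool => unbits (List Tok) x) := poly_unbits
  have h2 : NPC.Poly (fun p : List Bool × List Tok => if wf p.2 = true then start else fin false) :=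
    NPC.Poly.ite (NPC.Poly.decide_bool (hwf.comp (NPC.Poly.snd NPC.Poly.id)))
      (NPC.Poly.const _) (NPC.Poly.const _)
  refine (NPC.Poly.optCases (g := fun _ => fin false) (h := fun _ (w : List Tok) =>
    if wf w = true then start else fin false) h1 (NPC.Poly.const _) h2).congr fun x => ?_
  unfold tini
  cases unbits (List Tok) x <;> rfl

theorem poly_aw : NPC.Poly aw := by
  have h1 : NPC.Poly (fun x : List Bool => unbits (List Tok) x) := poly_unbits
  refine (NPC.Poly.optCases (g := fun _ => ([] : List Tok)) (h := fun _ (w : List Tok) => w) h1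
    (NPC.Poly.const _) (NPC.Poly.snd NPC.Poly.id)).congr fun x => ?_
  unfold aw
  cases unbits (List Tok) x <;> rfl

end Pool.Agent.Helper31.TR
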